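import Pool.Agent.N848.LT.Stm
import Pool.Agent.Y758.LC.NSB

/-!
Project LT (helper848), part NSG (helper971): nonsplit primes in the composite.
-/

set_option autoImplicit false

namespace Pool.Agent.N971.LT

open NumberField IsDedekindDomain Module Pool.Agent.N848.LT Pool.Agent.Y18.LC

/-- the isomorphism of a field with its image -/
noncomputable def eqv {F K : Type} [Field F] [NumberField F] [Field K] [NumberField K]
    (φ : F →ₐ[ℚ] K) : F ≃ₐ[ℚ] φ.fieldRange :=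
  AlgEquiv.ofBijective (φ.codRestrict φ.fieldRange.toSubalgebra (fun x => ⟨x, rfl⟩))
    ⟨fun x y h => φ.injective (congrArg Subtype.val h), fun y => by
      obtain ⟨x, hx⟩ := y.2
      exact ⟨x, Subtype.ext hx⟩⟩

theorem eqv_coe {F K : Type} [Field F] [NumberField F] [Field K] [NumberField K]
    (φ : F →ₐ[ℚ] K) (x : F) : (eqv φ x : K) = φ x := rfl

theorem t_NSG : S_NSG := by
  intro r k F K _ _ _ _ _ _ _ _ hG hr hadj hodd q hq hns u hqu v v' hv hv'
  obtain ⟨φ, hφ⟩ : ∃ φ : F →ₐ[ℚ] K, ∀ x, φ x = algebraMap F K x :=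
    ⟨(algebraMap F K).toRatAlgHom, fun x => rfl⟩
  have h2 : Fact (Nat.Prime 2) := ⟨Nat.prime_two⟩
  have key := Pool.Agent.Y758.LC.nsb 2 r k K φ.fieldRange (IsGalois.of_algEquiv (eqv φ))
    (by
      rw [← hr]
      exact (LinearEquiv.finrank_eq (eqv φ).toLinearEquiv).symm)
    (by
      rw [← hadj]
      congr 1
      ext x
      constructor
      · rintro ⟨y, hy⟩
        exact ⟨y, (hφ y).symm.trans hy⟩
      · rintro ⟨y, hy⟩
        exact ⟨y, (hφ y).trans hy⟩)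
    (fun h => (Nat.not_even_iff_odd.2 hodd) (even_iff_two_dvd.2 h)) q hq hns
  have hmem : ∀ x : 𝓞 φ.fieldRange, ∃ x' : 𝓞 F, ∀ w : HeightOneSpectrum (𝓞 K), Ab w u →
      (algebraMap (𝓞 φ.fieldRange) (𝓞 K) x ∈ w.asIdeal ↔ x' ∈ u.asIdeal) := by
    intro x
    obtain ⟨x', hx'⟩ : ∃ x' : 𝓞 F, (x' : F) = (eqv φ).symm (x : φ.fieldRange) :=
      ⟨⟨(eqv φ).symm (x : φ.fieldRange), map_isIntegral_int (eqv φ).symm
        (RingOfIntegers.isIntegral_coe x)⟩, rfl⟩
    refine ⟨x', fun w hw => ?_⟩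
    have hw' : w.asIdeal.comap (algebraMap (𝓞 F) (𝓞 K)) = u.asIdeal := hw
    have he : algebraMap (𝓞 φ.fieldRange) (𝓞 K) x = algebraMap (𝓞 F) (𝓞 K) x' := by
      apply RingOfIntegers.ext
      show ((x : φ.fieldRange) : K) = algebraMap F K (x' : F)
      rw [hx', ← hφ, ← eqv_coe, AlgEquiv.apply_symm_apply]
    rw [← hw', Ideal.mem_comap, he]
  refine (key v v' ?_ ?_).symm
  · have hv1 : v.asIdeal.comap (algebraMap (𝓞 F) (𝓞 K)) = u.asIdeal := hv
    rw [← hv1, Ideal.mem_comap, map_natCast] at hqu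
    exact hqu
  · ext x
    obtain ⟨x', hx'⟩ := hmem x
    rw [Ideal.mem_comap, Ideal.mem_comap, hx' v' hv', hx' v hv]

end Pool.Agent.N971.LT
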